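import Mathlib

/-!
# Claw-free graphs have unbounded bend-number
-/

set_option autoImplicit false

namespace Pool.Agent.Results.MP_fe8c60_co.Unbounded

/-- The planar square grid: points of `ℤ²` at Euclidean distance one are adjacent. -/
def grid : SimpleGraph (ℤ × ℤ) where
  Adj p q := (p.1 - q.1) ^ 2 + (p.2 - q.2) ^ 2 = 1
  symm := ⟨fun p q h => by linarith⟩
  loopless := ⟨fun p h => by simp at h⟩

/-- The number of bends of a grid path, given as the list of its vertices: the number of interior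
vertices at which it switches between a horizontal and a vertical edge. -/
def bends : List (ℤ × ℤ) → ℕ
  | p :: q :: r :: l => (if (p.2 = q.2 ↔ q.2 = r.2) then 0 else 1) + bends (q :: r :: l)
  | _ => 0

/-- A grid path. -/
structure GridPath where
  start : ℤ × ℤ
  finish : ℤ × ℤ
  walk : grid.Walk start finish
  isPath : walk.IsPath

/-- `G` has a `k`-bend EPG representation. -/
def HasRep {V : Type} (G : SimpleGraph V) (k : ℕ) : Prop :=
  ∃ P : V → GridPath, (∀ v, bends (P v).walk.support ≤ k) ∧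
    ∀ u v, u ≠ v → (G.Adj u v ↔ ∃ e, e ∈ (P u).walk.edges ∧ e ∈ (P v).walk.edges)

/-- The bend-number. -/
noncomputable def bendNumber {V : Type} (G : SimpleGraph V) : ℕ∞ :=
  sInf {b : ℕ∞ | ∃ k : ℕ, b = k ∧ HasRep G k}

/-- `G` has no induced subgraph isomorphic to the claw `K_{1,3}`. -/
def ClawFree {V : Type} (G : SimpleGraph V) : Prop :=
  IsEmpty (completeBipartiteGraph (Fin 1) (Fin 3) ↪g G)

/-! ### Segments -/

/-- The point at position `t` on a line: the row `c` if `d`, the column `c` otherwise. -/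
def pt (d : Bool) (c t : ℤ) : ℤ × ℤ := if d then (t, c) else (c, t)

/-- A straight segment. -/
structure Seg where
  d : Bool
  c : ℤ
  a : ℤ
  b : ℤ

/-- The grid edges of a segment. -/
def Seg.E (s : Seg) : Set (Sym2 (ℤ × ℤ)) :=
  {e | ∃ t, s.a ≤ t ∧ t < s.b ∧ e = s(pt s.d s.c t, pt s.d s.c (t + 1))}

lemma grid_adj (p q : ℤ × ℤ) (h : grid.Adj p q) :
    ∃ d c t, (d = true ↔ p.2 = q.2) ∧ p = pt d c t ∧ (q = pt d c (t + 1) ∨ q = pt d c (t - 1)) := by
  obtain ⟨p1, p2⟩ := p
  obtain ⟨q1, q2⟩ := q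
  have h' : (p1 - q1) ^ 2 + (p2 - q2) ^ 2 = 1 := h
  have h1 : -1 ≤ p1 - q1 ∧ p1 - q1 ≤ 1 := by constructor <;> nlinarith [sq_nonneg (p2 - q2)]
  have h2 : -1 ≤ p2 - q2 ∧ p2 - q2 ≤ 1 := by constructor <;> nlinarith [sq_nonneg (p1 - q1)]
  have h3 : p1 - q1 = -1 ∨ p1 - q1 = 0 ∨ p1 - q1 = 1 := by omega
  have h4 : p2 - q2 = -1 ∨ p2 - q2 = 0 ∨ p2 - q2 = 1 := by omega
  by_cases hpq : p2 = q2
  · subst hpq
    refine ⟨true, p2, p1, by simp, by simp [pt], ?_⟩
    rcases h3 with h3 | h3 | h3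
    · left; simp [pt]; omega
    · rw [h3] at h'; simp at h'
    · right; simp [pt]; omega
  · have h5 : p1 = q1 := by
      rcases h3 with h3 | h3 | h3
      · rcases h4 with h4 | h4 | h4 <;> rw [h3, h4] at h' <;> norm_num at h'
        omega
      · omega
      · rcases h4 with h4 | h4 | h4 <;> rw [h3, h4] at h' <;> norm_num at h'
        omega
    subst h5
    refine ⟨false, p1, p2, by simp [hpq], by simp [pt], ?_⟩
    rcases h4 with h4 | h4 | h4
    · left; simp [pt]; omega
    · omega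
    · right; simp [pt]; omega

lemma pt_inj {d : Bool} {c c' t t' : ℤ} (h : pt d c t = pt d c' t') : c = c' ∧ t = t' := by
  unfold pt at h
  split_ifs at h <;> simp_all

/-- One edge is a segment. -/
lemma seg_edge (p q : ℤ × ℤ) (h : grid.Adj p q) :
    ∃ s : Seg, (s.d = true ↔ p.2 = q.2) ∧ (∃ t, p = pt s.d s.c t ∧ s.a ≤ t ∧ t ≤ s.b) ∧
      ∀ e, e = s(p, q) ↔ e ∈ s.E := by
  obtain ⟨d, c, t, hd, hp, hq⟩ := grid_adj p q h
  rcases hq with hq | hq
  · refine ⟨⟨d, c, t, t + 1⟩, hd, ⟨t, hp, le_refl _, by show t ≤ t + 1; omega⟩, fun e => ?_⟩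
    constructor
    · rintro rfl
      exact ⟨t, le_refl _, by show t < t + 1; omega, by rw [hp, hq]⟩
    · rintro ⟨t', h1, h2, rfl⟩
      have h1' : t ≤ t' := h1
      have h2' : t' < t + 1 := h2
      have : t' = t := by omega
      rw [this, hp, hq]
  · refine ⟨⟨d, c, t - 1, t⟩, hd, ⟨t, hp, by show t - 1 ≤ t; omega, le_refl _⟩, fun e => ?_⟩
    constructor
    · rintro rfl
      refine ⟨t - 1, le_refl _, by show t - 1 < t; omega, ?_⟩
      rw [hp, hq, Sym2.eq_swap]
      simp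
    · rintro ⟨t', h1, h2, rfl⟩
      have h1' : t - 1 ≤ t' := h1
      have h2' : t' < t := h2
      have : t' = t - 1 := by omega
      rw [this, hp, hq, Sym2.eq_swap]
      simp

/-- Extending a segment by an edge at one of its points. -/
lemma seg_extend (s : Seg) (p q : ℤ × ℤ) (h : grid.Adj p q) (hd : s.d = true ↔ p.2 = q.2)
    (hq : ∃ t, q = pt s.d s.c t ∧ s.a ≤ t ∧ t ≤ s.b) :
    ∃ s' : Seg, s'.d = s.d ∧ (∃ t, p = pt s'.d s'.c t ∧ s'.a ≤ t ∧ t ≤ s'.b) ∧
      ∀ e, (e = s(p, q) ∨ e ∈ s.E) ↔ e ∈ s'.E := by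
  obtain ⟨sd, sc, sa, sb⟩ := s
  obtain ⟨t, hqt, hat, htb⟩ := hq
  obtain ⟨d, c, t', hd', hp', hq'⟩ := grid_adj p q h
  simp only at hd hqt hat htb
  have hdd : d = sd := by
    cases d <;> cases sd <;> simp_all
  subst hdd
  rcases hq' with hq' | hq'
  · rw [hqt] at hq'
    obtain ⟨rfl, h2⟩ := pt_inj hq'
    -- `q = pt t`, `p = pt (t - 1)`
    refine ⟨⟨d, sc, min sa (t - 1), sb⟩, rfl, ⟨t', hp', ?_, ?_⟩, fun e => ?_⟩
    · show min sa (t - 1) ≤ t'
      omega
    · show t' ≤ sb
      omega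
    · constructor
      · rintro (rfl | ⟨u, h3, h4, rfl⟩)
        · refine ⟨t', ?_, ?_, ?_⟩
          · show min sa (t - 1) ≤ t'
            omega
          · show t' < sb
            omega
          · rw [hp', hqt, h2]
        · refine ⟨u, ?_, h4, rfl⟩
          have h3' : sa ≤ u := h3
          show min sa (t - 1) ≤ u
          omega
      · rintro ⟨u, h3, h4, rfl⟩
        have h3' : min sa (t - 1) ≤ u := h3
        have h4' : u < sb := h4
        by_cases hu : sa ≤ u
        · exact Or.inr ⟨u, hu, h4, rfl⟩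
        · left
          have : u = t' := by omega
          rw [this, hp', hqt, h2]
  · rw [hqt] at hq'
    obtain ⟨rfl, h2⟩ := pt_inj hq'
    -- `q = pt t`, `p = pt (t + 1)`
    refine ⟨⟨d, sc, sa, max sb (t + 1)⟩, rfl, ⟨t', hp', ?_, ?_⟩, fun e => ?_⟩
    · show sa ≤ t'
      omega
    · show t' ≤ max sb (t + 1)
      omega
    · constructor
      · rintro (rfl | ⟨u, h3, h4, rfl⟩)
        · refine ⟨t, ?_, ?_, ?_⟩
          · exact hat
          · show t < max sb (t + 1)
            omega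
          · rw [hp', hqt, Sym2.eq_swap, h2]
            simp
        · refine ⟨u, h3, ?_, rfl⟩
          have h4' : u < sb := h4
          show u < max sb (t + 1)
          omega
      · rintro ⟨u, h3, h4, rfl⟩
        have h3' : sa ≤ u := h3
        have h4' : u < max sb (t + 1) := h4
        by_cases hu : u < sb
        · exact Or.inr ⟨u, h3, hu, rfl⟩
        · left
          have : u = t := by omega
          rw [this, hp', hqt, Sym2.eq_swap, h2]
          simp

/-- The edges of a walk with few bends are those of few segments. -/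
lemma walk_segments {u v : ℤ × ℤ} (w : grid.Walk u v) :
    ∀ x : ℤ × ℤ, grid.Adj x u →
    ∃ (s : Seg) (L : List Seg), L.length ≤ bends (x :: w.support) ∧ (s.d = true ↔ x.2 = u.2) ∧
      (∃ t, x = pt s.d s.c t ∧ s.a ≤ t ∧ t ≤ s.b) ∧
      ∀ e, (e = s(x, u) ∨ e ∈ w.edges) ↔ (e ∈ s.E ∨ ∃ s' ∈ L, e ∈ s'.E) := by
  induction w with
  | nil =>
    intro x h
    obtain ⟨s, h1, h2, h3⟩ := seg_edge _ _ h
    exact ⟨s, [], by simp, h1, h2, fun e => by simp [h3]⟩
  | @cons u w' v h p ih =>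
    intro x hx
    obtain ⟨s, L, hL, hs1, hs2, hs3⟩ := ih u h
    have hb : bends (x :: (SimpleGraph.Walk.cons h p).support) =
        (if (x.2 = u.2 ↔ u.2 = w'.2) then 0 else 1) + bends (u :: p.support) := by
      rw [SimpleGraph.Walk.support_cons]
      obtain ⟨l, hl⟩ : ∃ l, p.support = w' :: l := ⟨_, p.cons_tail_support.symm⟩
      rw [hl]
      rfl
    by_cases hdir : (x.2 = u.2 ↔ u.2 = w'.2)
    · rw [if_pos hdir, zero_add] at hb
      obtain ⟨s', hs'1, hs'2, hs'3⟩ := seg_extend s x u hx (hs1.trans hdir.symm) hs2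
      refine ⟨s', L, by rw [hb]; exact hL, by rw [hs'1]; exact hs1.trans hdir.symm, hs'2,
        fun e => ?_⟩
      rw [SimpleGraph.Walk.edges_cons, List.mem_cons, hs3, ← or_assoc, hs'3]
    · rw [if_neg hdir] at hb
      obtain ⟨s', hs'1, hs'2, hs'3⟩ := seg_edge x u hx
      refine ⟨s', s :: L, by rw [hb, List.length_cons]; omega, hs'1, hs'2, fun e => ?_⟩
      rw [SimpleGraph.Walk.edges_cons, List.mem_cons, hs3, hs'3]
      simp

lemma path_segments (k : ℕ) (P : GridPath) (hP : bends P.walk.support ≤ k) :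
    ∃ S : Fin (k + 1) → Seg, ∀ e, e ∈ P.walk.edges ↔ ∃ i, e ∈ (S i).E := by
  obtain ⟨u, v, w, hw⟩ := P
  have key : ∃ L : List Seg, L.length ≤ k + 1 ∧ ∀ e, e ∈ w.edges ↔ ∃ s ∈ L, e ∈ s.E := by
    cases w with
    | nil => exact ⟨[], by simp, fun e => by simp⟩
    | @cons u w' v h p =>
      obtain ⟨s, L, hL, -, -, h3⟩ := walk_segments p u h
      refine ⟨s :: L, ?_, fun e => ?_⟩
      · rw [List.length_cons]
        have : bends (u :: p.support) ≤ k := hP
        omega
      · rw [SimpleGraph.Walk.edges_cons, List.mem_cons, h3]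
        simp
  obtain ⟨L, hL, hL'⟩ := key
  refine ⟨fun i => L.getD i ⟨true, 0, 0, 0⟩, fun e => ?_⟩
  show e ∈ w.edges ↔ _
  rw [hL']
  constructor
  · rintro ⟨s, hs, he⟩
    obtain ⟨i, hi, rfl⟩ := List.getElem_of_mem hs
    refine ⟨⟨i, by omega⟩, ?_⟩
    simpa [List.getD_eq_getElem?_getD, hi] using he
  · rintro ⟨i, hi⟩
    by_cases h : (i : ℕ) < L.length
    · refine ⟨L[(i : ℕ)], List.getElem_mem h, ?_⟩
      simpa [List.getD_eq_getElem?_getD, h] using hi
    · exfalso
      have hi' : e ∈ (L.getD (i : ℕ) ⟨true, 0, 0, 0⟩).E := hi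
      rw [List.getD_eq_default _ _ (by omega)] at hi'
      obtain ⟨t, h1, h2, -⟩ := hi'
      have h1' : (0 : ℤ) ≤ t := h1
      have h2' : t < (0 : ℤ) := h2
      omega

/-- Two segments share an edge. -/
lemma seg_meet (s s' : Seg) : (∃ e, e ∈ s.E ∧ e ∈ s'.E) ↔
    s.d = s'.d ∧ s.c = s'.c ∧ s.a < s.b ∧ s.a < s'.b ∧ s'.a < s.b ∧ s'.a < s'.b := by
  constructor
  · rintro ⟨e, ⟨t, h1, h2, rfl⟩, ⟨t', h3, h4, h5⟩⟩
    have h6 : s.d = s'.d ∧ s.c = s'.c ∧ t = t' := by
      rw [Sym2.eq_iff] at h5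
      unfold pt at h5
      cases hd : s.d <;> cases hd' : s'.d <;> simp [hd, hd'] at h5 ⊢ <;> omega
    obtain ⟨h6, h7, rfl⟩ := h6
    exact ⟨h6, h7, by omega, by omega, by omega, by omega⟩
  · rintro ⟨h1, h2, h3, h4, h5, h6⟩
    refine ⟨s(pt s.d s.c (max s.a s'.a), pt s.d s.c (max s.a s'.a + 1)),
      ⟨_, by omega, by omega, rfl⟩, ⟨max s.a s'.a, by omega, by omega, by rw [h1, h2]⟩⟩

/-! ### Counting -/

/-- Integers can be compressed keeping their order. -/
lemma compress {ι : Type} [Fintype ι] (X : ι → ℤ) (M : ℕ) (hM : Fintype.card ι ≤ M) :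
    ∃ Y : ι → Fin M, (∀ i j, X i < X j ↔ Y i < Y j) ∧ (∀ i j, X i = X j ↔ Y i = Y j) := by
  classical
  have hlt : ∀ i, ((Finset.univ.image X).filter (· < X i)).card < M := by
    intro i
    calc ((Finset.univ.image X).filter (· < X i)).card < (Finset.univ.image X).card := by
          apply Finset.card_lt_card
          rw [Finset.ssubset_iff_of_subset (Finset.filter_subset _ _)]
          exact ⟨X i, Finset.mem_image_of_mem _ (Finset.mem_univ i), by simp⟩
      _ ≤ Fintype.card ι := by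
          rw [← Finset.card_univ]
          exact Finset.card_image_le
      _ ≤ M := hM
  have hmono : ∀ i j, X i < X j → ((Finset.univ.image X).filter (· < X i)).card <
      ((Finset.univ.image X).filter (· < X j)).card := by
    intro i j hij
    apply Finset.card_lt_card
    rw [Finset.ssubset_iff_of_subset]
    · exact ⟨X i, by simp [hij], by simp⟩
    · intro x hx
      rw [Finset.mem_filter] at hx ⊢
      exact ⟨hx.1, hx.2.trans hij⟩
  refine ⟨fun i => ⟨_, hlt i⟩, fun i j => ?_, fun i j => ?_⟩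
  · constructor
    · intro h
      exact hmono i j h
    · intro h
      by_contra hc
      rcases lt_or_eq_of_le (not_lt.1 hc) with h' | h'
      · exact lt_asymm h (hmono j i h')
      · rw [Fin.mk_lt_mk, h'] at h
        exact lt_irrefl _ h
  · constructor
    · intro h
      simp only [h]
    · intro h
      rcases lt_trichotomy (X i) (X j) with h' | h' | h'
      · exact absurd (hmono i j h') (by rw [Fin.mk_eq_mk.1 h]; exact lt_irrefl _)
      · exact h'
      · exact absurd (hmono j i h') (by rw [Fin.mk_eq_mk.1 h]; exact lt_irrefl _)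

/-- The combinatorial data of a representation. -/
abbrev Dat (V : Type) (k M : ℕ) : Type :=
  (V × Fin (k + 1) → Bool) × (V × Fin (k + 1) × Fin 3 → Fin M)

/-- The adjacency given by the data. -/
def rel {V : Type} {k M : ℕ} (D : Dat V k M) (u v : V) : Prop :=
  ∃ i j, D.1 (u, i) = D.1 (v, j) ∧ D.2 (u, i, 0) = D.2 (v, j, 0) ∧ D.2 (u, i, 1) < D.2 (u, i, 2) ∧
    D.2 (u, i, 1) < D.2 (v, j, 2) ∧ D.2 (v, j, 1) < D.2 (u, i, 2) ∧ D.2 (v, j, 1) < D.2 (v, j, 2)

lemma exists_dat {V : Type} [Fintype V] (G : SimpleGraph V) (k M : ℕ) (hG : HasRep G k)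
    (hM : Fintype.card (V × Fin (k + 1) × Fin 3) ≤ M) :
    ∃ D : Dat V k M, ∀ u v, u ≠ v → (G.Adj u v ↔ rel D u v) := by
  obtain ⟨P, hP1, hP2⟩ := hG
  choose S hS using fun v => path_segments k (P v) (hP1 v)
  let X : V × Fin (k + 1) × Fin 3 → ℤ := fun p =>
    if p.2.2 = 0 then (S p.1 p.2.1).c else if p.2.2 = 1 then (S p.1 p.2.1).a else (S p.1 p.2.1).b
  obtain ⟨Y, hY1, hY2⟩ := compress X M hM
  refine ⟨(fun p => (S p.1 p.2).d, Y), fun u v huv => ?_⟩
  rw [hP2 u v huv]
  have hc : ∀ v i, X (v, i, 0) = (S v i).c := fun v i => by simp [X]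
  have ha : ∀ v i, X (v, i, 1) = (S v i).a := fun v i => by simp [X]
  have hb : ∀ v i, X (v, i, 2) = (S v i).b := fun v i => by simp [X]
  have h1 : (∃ e, e ∈ (P u).walk.edges ∧ e ∈ (P v).walk.edges) ↔
      ∃ i j, ∃ e, e ∈ (S u i).E ∧ e ∈ (S v j).E := by
    constructor
    · rintro ⟨e, he, he'⟩
      obtain ⟨i, hi⟩ := (hS u e).1 he
      obtain ⟨j, hj⟩ := (hS v e).1 he'
      exact ⟨i, j, e, hi, hj⟩
    · rintro ⟨i, j, e, hi, hj⟩
      exact ⟨e, (hS u e).2 ⟨i, hi⟩, (hS v e).2 ⟨j, hj⟩⟩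
  rw [h1]
  refine exists_congr fun i => exists_congr fun j => ?_
  rw [seg_meet, ← hc, ← hc, ← ha, ← ha, ← hb, ← hb, hY2, hY1, hY1, hY1, hY1]

/-- A graph whose vertices are covered by two cliques. -/
def cob {n : ℕ} (f : Fin n → Fin n → Bool) : SimpleGraph (Fin n ⊕ Fin n) where
  Adj
    | .inl a, .inl b => a ≠ b
    | .inr a, .inr b => a ≠ b
    | .inl a, .inr b => f a b = true
    | .inr b, .inl a => f a b = true
  symm := ⟨by
    rintro (a | a) (b | b) h
    · exact fun e => h e.symm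
    · exact h
    · exact h
    · exact fun e => h e.symm⟩
  loopless := ⟨by rintro (a | a) h <;> exact h rfl⟩

lemma cob_clawFree {n : ℕ} (f : Fin n → Fin n → Bool) : ClawFree (cob f) := by
  refine ⟨fun φ => ?_⟩
  have hne : ∀ i j : Fin 3, i ≠ j → φ (.inr i) ≠ φ (.inr j) ∧
      ¬ (cob f).Adj (φ (.inr i)) (φ (.inr j)) := by
    intro i j hij
    refine ⟨fun h => hij (Sum.inr_injective (φ.injective h)), fun h => ?_⟩
    rw [φ.map_adj_iff] at h
    simp at h
  have hside : ∀ i j : Fin 3, i ≠ j → ((φ (.inr i)).isLeft ≠ (φ (.inr j)).isLeft) := by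
    intro i j hij hs
    obtain ⟨h1, h2⟩ := hne i j hij
    rcases hi : φ (.inr i) with a | a <;> rcases hj : φ (.inr j) with b | b <;>
      rw [hi, hj] at h1 h2 hs
    · exact h2 (fun h => h1 (by rw [h]))
    · simp at hs
    · simp at hs
    · exact h2 (fun h => h1 (by rw [h]))
  have h01 := hside 0 1 (by decide)
  have h02 := hside 0 2 (by decide)
  have h12 := hside 1 2 (by decide)
  revert h01 h02 h12
  generalize (φ (.inr 0)).isLeft = x
  generalize (φ (.inr 1)).isLeft = y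
  generalize (φ (.inr 2)).isLeft = z
  revert x y z
  decide

lemma exists_not_hasRep (k : ℕ) : ∃ n, ∃ f : Fin n → Fin n → Bool, ¬ HasRep (cob f) k := by
  by_contra hcon
  push Not at hcon
  -- the parameters
  let K := k + 1
  let r := 14 * K
  let n := 2 ^ (2 * r)
  let M := 2 ^ (2 * r + K + 3)
  have hK : K + 1 ≤ 2 ^ K := Nat.lt_two_pow_self
  have hcard : Fintype.card ((Fin n ⊕ Fin n) × Fin (k + 1) × Fin 3) = n * (6 * K) := by
    simp only [Fintype.card_prod, Fintype.card_sum, Fintype.card_fin]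
    show (n + n) * (K * 3) = _
    ring
  have hM : Fintype.card ((Fin n ⊕ Fin n) × Fin (k + 1) × Fin 3) ≤ M := by
    rw [hcard]
    have h1 : 6 * K ≤ 2 ^ (K + 3) := by
      rw [pow_add]
      omega
    calc n * (6 * K) ≤ n * 2 ^ (K + 3) := Nat.mul_le_mul_left _ h1
      _ = M := by
        show 2 ^ (2 * r) * 2 ^ (K + 3) = 2 ^ (2 * r + K + 3)
        rw [← pow_add, Nat.add_assoc (2 * r) K 3]
  choose D hD using fun f : Fin n → Fin n → Bool => exists_dat (cob f) k M (hcon n f) hM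
  have hinj : Function.Injective D := by
    intro f g hfg
    funext a b
    have h1 := hD f (.inl a) (.inr b) (by simp)
    have h2 := hD g (.inl a) (.inr b) (by simp)
    rw [hfg, ← h2] at h1
    have h3 : (f a b = true) ↔ (g a b = true) := h1
    exact Bool.eq_iff_iff.2 h3
  have hle := Fintype.card_le_of_injective D hinj
  rw [Fintype.card_prod, Fintype.card_fun, Fintype.card_fun, Fintype.card_fun, Fintype.card_fun,
    hcard, Fintype.card_bool, Fintype.card_fin, Fintype.card_fin, Fintype.card_prod,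
    Fintype.card_sum, Fintype.card_fin, Fintype.card_fin] at hle
  have h1 : (2 ^ n) ^ n = 2 ^ (n * n) := (pow_mul 2 n n).symm
  have h2 : 2 ^ ((n + n) * (k + 1)) * M ^ (n * (6 * K)) =
      2 ^ ((n + n) * K + (2 * r + K + 3) * (n * (6 * K))) := by
    show 2 ^ ((n + n) * K) * (2 ^ (2 * r + K + 3)) ^ (n * (6 * K)) = _
    rw [← pow_mul, ← pow_add]
  rw [h1, h2] at hle
  have h3 := (Nat.pow_le_pow_iff_right (by norm_num : 1 < 2)).1 hle
  have h4 : n * n ≤ n * (2 * K + (2 * r + K + 3) * (6 * K)) := by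
    calc n * n ≤ _ := h3
      _ = _ := by ring
  have hn : 0 < n := by positivity
  have h5 : n ≤ 2 * K + (2 * r + K + 3) * (6 * K) := Nat.le_of_mul_le_mul_left h4 hn
  have h6 : r * r < n := by
    have : r < 2 ^ r := Nat.lt_two_pow_self
    calc r * r < 2 ^ r * 2 ^ r := Nat.mul_lt_mul'' this this
      _ = n := by
        show 2 ^ r * 2 ^ r = 2 ^ (2 * r)
        rw [← pow_add, two_mul]
  have h7 : r * r = 196 * (K * K) := by
    show 14 * K * (14 * K) = _
    ring
  have h8 : 2 * K + (2 * r + K + 3) * (6 * K) = 174 * (K * K) + 20 * K := by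
    show 2 * K + (2 * (14 * K) + K + 3) * (6 * K) = _
    ring
  have h9 : K ≤ K * K := Nat.le_mul_self K
  omega

lemma HasRep.mono {V : Type} {G : SimpleGraph V} {k l : ℕ} (hkl : k ≤ l) (h : HasRep G k) :
    HasRep G l := by
  obtain ⟨P, h1, h2⟩ := h
  exact ⟨P, fun v => (h1 v).trans hkl, h2⟩

/-- The bend-number of claw-free graphs is unbounded. -/
theorem result : ∀ k : ℕ, ∃ (V : Type) (_ : Fintype V) (G : SimpleGraph V),
    ClawFree G ∧ (k : ℕ∞) < bendNumber G := by
  intro k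
  obtain ⟨n, f, hf⟩ := exists_not_hasRep k
  refine ⟨Fin n ⊕ Fin n, inferInstance, cob f, cob_clawFree f, ?_⟩
  have h1 : ((k + 1 : ℕ) : ℕ∞) ≤ bendNumber (cob f) := by
    refine le_sInf ?_
    rintro b ⟨l, rfl, hl⟩
    by_contra hc
    push Not at hc
    have : l < k + 1 := by exact_mod_cast hc
    exact hf (hl.mono (by omega))
  refine lt_of_lt_of_le ?_ h1
  exact_mod_cast Nat.lt_succ_self k

end Pool.Agent.Results.MP_fe8c60_co.Unbounded
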